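import Mathlib
import Pool.Agent.Helper24.H2.Defs

/-!
# Type 2 (`H2`): naturality and linearity of the definitions

`lx c r x y` is linear in `y`, `ly c r x y` is linear in `x`; `lx_expand`, `lx_sum`, `ly_sum`;
`lx_Y0`, `lx_Y1`, `lx_yh`, `ly_xh`; `det_mul_eq`, `Fh_eq`, `quad_eq`.
-/

namespace Pool.Agent.Helper47.H2

open MvPolynomial Pool.Agent.Helper24.H2
open Pool.Agent.Helper28.HN (I Un En cr aff)

section map

variable {m : ℕ} {S T : Type*} [CommRing S] [CommRing T] (f : S →+* T)

theorem map_bf (c : Ix m → S) (r : Bi m) (x y : I m → S) :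
    f (bf c r x y) = bf (fun e => f (c e)) r (fun i => f (x i)) fun i => f (y i) := by
  simp only [bf, map_sum, map_mul]

theorem map_sf (c : Ix m → S) (x x' y : I m → S) :
    f (sf c x x' y) = sf (fun e => f (c e)) (fun i => f (x i)) (fun i => f (x' i))
      fun i => f (y i) := by
  simp only [sf, map_sum, map_mul, map_add]

theorem map_tf (c : Ix m → S) (x y y' : I m → S) :
    f (tf c x y y') = tf (fun e => f (c e)) (fun i => f (x i)) (fun i => f (y i))
      fun i => f (y' i) := by
  simp only [tf, map_sum, map_mul, map_add]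

theorem map_lx (c : Ix m → S) (r : Fin m) (x y : I m → S) :
    f (lx c r x y) = lx (fun e => f (c e)) r (fun i => f (x i)) fun i => f (y i) := by
  unfold lx
  split_ifs with h
  · exact map_bf f c _ x y
  · exact map_sf f c x x y

theorem map_ly (c : Ix m → S) (r : Fin m) (x y : I m → S) :
    f (ly c r x y) = ly (fun e => f (c e)) r (fun i => f (x i)) fun i => f (y i) := by
  unfold ly
  split_ifs with h
  · exact map_bf f c _ x y
  · exact map_tf f c x y y

theorem map_dl (c : Ix m → S) (r : Fin m) (x ξ y : I m → S) :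
    f (dl c r x ξ y) = dl (fun e => f (c e)) r (fun i => f (x i)) (fun i => f (ξ i))
      fun i => f (y i) := by
  unfold dl
  split_ifs with h
  · exact map_bf f c _ ξ y
  · rw [map_mul, map_ofNat, map_sf]

theorem map_single {J : Type*} [DecidableEq J] (j : J) :
    (fun i => f ((Pi.single j 1 : J → S) i)) = Pi.single j 1 := by
  funext i
  by_cases h : i = j
  · subst h
    simp
  · simp [Pi.single_eq_of_ne h]

theorem map_aff {n : ℕ} (u : Fin n → S) :
    (fun i => f ((Fin.cons 1 u : Fin (n + 1) → S) i)) = Fin.cons 1 fun i => f (u i) := by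
  funext i
  refine Fin.cases ?_ (fun j => ?_) i
  · simp
  · simp

theorem map_affI (u : Fin (m + 1) → S) :
    (fun i => f ((aff u : I m → S) i)) = aff fun i => f (u i) := map_aff f u

theorem map_Mx (c : Ix m → S) (x : I m → S) :
    f.mapMatrix (Mx c x) = Mx (fun e => f (c e)) fun i => f (x i) := by
  ext r b
  simp only [RingHom.mapMatrix_apply, Matrix.map_apply, Mx, map_lx, map_single]

theorem map_Mx_det (c : Ix m → S) (x : I m → S) :
    f (Mx c x).det = (Mx (fun e => f (c e)) fun i => f (x i)).det := by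
  rw [RingHom.map_det, map_Mx]

theorem map_mulVec {n : ℕ} (M : Matrix (Fin n) (Fin n) S) (v : Fin n → S) (i : Fin n) :
    f (M.mulVec v i) = (f.mapMatrix M).mulVec (fun j => f (v j)) i := by
  simp only [Matrix.mulVec, dotProduct, map_sum, map_mul, RingHom.mapMatrix_apply,
    Matrix.map_apply]

theorem map_Y0 (c : Ix m → S) (x : I m → S) (i : I m) :
    f (Y0 c x i) = Y0 (fun e => f (c e)) (fun i => f (x i)) i := by
  refine Fin.cases ?_ (fun j => Fin.cases ?_ (fun b => ?_) j) i
  · simp only [Y0, Fin.cons_zero, map_Mx_det]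
  · simp only [Y0, Fin.cons_succ, Fin.cons_zero, map_zero]
  · simp only [Y0, Fin.cons_succ, Pi.neg_apply, map_neg, map_mulVec, RingHom.map_adjugate, map_Mx,
      map_lx, map_single]

theorem map_Y1 (c : Ix m → S) (x : I m → S) (i : I m) :
    f (Y1 c x i) = Y1 (fun e => f (c e)) (fun i => f (x i)) i := by
  refine Fin.cases ?_ (fun j => Fin.cases ?_ (fun b => ?_) j) i
  · simp only [Y1, Fin.cons_zero, map_zero]
  · simp only [Y1, Fin.cons_succ, Fin.cons_zero, map_Mx_det]
  · simp only [Y1, Fin.cons_succ, Pi.neg_apply, map_neg, map_mulVec, RingHom.map_adjugate, map_Mx,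
      map_lx, map_single]

theorem map_yh (c : Ix m → S) (x : I m → S) (z : S) (i : I m) :
    f (yh c x z i) = yh (fun e => f (c e)) (fun i => f (x i)) (f z) i := by
  simp only [yh, map_add, map_mul, map_Y0, map_Y1]

theorem map_Fh (c : Ix m → S) (x : I m → S) (z : S) :
    f (Fh c x z) = Fh (fun e => f (c e)) (fun i => f (x i)) (f z) := by
  simp only [Fh, map_tf, map_yh]

theorem map_Ah (c : Ix m → S) (x : I m → S) :
    f (Ah c x) = Ah (fun e => f (c e)) fun i => f (x i) := by
  simp only [Ah, map_tf, map_Y1]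

theorem map_Bh (c : Ix m → S) (x : I m → S) :
    f (Bh c x) = Bh (fun e => f (c e)) fun i => f (x i) := by
  simp only [Bh, map_tf, map_Y0, map_Y1]

theorem map_Ch (c : Ix m → S) (x : I m → S) :
    f (Ch c x) = Ch (fun e => f (c e)) fun i => f (x i) := by
  simp only [Ch, map_tf, map_Y0]

theorem map_Nx (c : Ix m → S) (y : I m → S) :
    f.mapMatrix (Nx c y) = Nx (fun e => f (c e)) fun i => f (y i) := by
  ext r b
  simp only [RingHom.mapMatrix_apply, Matrix.map_apply, Nx, map_ly, map_single]

theorem map_Nx_det (c : Ix m → S) (y : I m → S) :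
    f (Nx c y).det = (Nx (fun e => f (c e)) fun i => f (y i)).det := by
  rw [RingHom.map_det, map_Nx]

theorem map_vh (c : Ix m → S) (y : I m → S) (i : Fin (m + 1)) :
    f (vh c y i) = vh (fun e => f (c e)) (fun i => f (y i)) i := by
  refine Fin.lastCases ?_ (fun j => ?_) i
  · simp only [vh, Fin.snoc_last, map_Nx_det]
  · simp only [vh, Fin.snoc_castSucc, Pi.neg_apply, map_neg, map_mulVec, RingHom.map_adjugate,
      map_Nx, map_ly, map_single]

theorem map_xh (c : Ix m → S) (y : I m → S) (i : I m) :
    f (xh c y i) = xh (fun e => f (c e)) (fun i => f (y i)) i := by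
  refine Fin.cases ?_ (fun j => ?_) i
  · simp only [xh, Fin.cons_zero, map_zero]
  · simp only [xh, Fin.cons_succ, map_vh]

theorem map_nx (c : Ix m → S) (x y : I m → S) (i : I m) :
    f (nx c x y i) = nx (fun e => f (c e)) (fun i => f (x i)) (fun i => f (y i)) i := by
  simp only [nx, map_sub, map_mul, map_sf, map_xh, map_ofNat]

theorem map_ny (c : Ix m → S) (x y : I m → S) (i : I m) :
    f (ny c x y i) = ny (fun e => f (c e)) (fun i => f (x i)) (fun i => f (y i)) i := by
  simp only [ny, map_sub, map_mul, map_tf, map_Y1, map_Ah, map_ofNat]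

theorem map_kah (c : Ix m → S) (x : I m → S) (z : S) :
    f (kah c x z) = kah (fun e => f (c e)) (fun i => f (x i)) (f z) := by
  simp only [kah, map_sf, map_xh, map_yh]

theorem map_psh (c : Ix m → S) (x : I m → S) (z : S) :
    f (psh c x z) = psh (fun e => f (c e)) (fun i => f (x i)) (f z) := by
  simp only [psh, map_sf, map_xh, map_yh]

theorem map_cons2 {n : ℕ} (u : Fin n → S) :
    (fun i => f ((Fin.cons 0 (Fin.cons 0 u) : Fin (n + 2) → S) i)) =
      Fin.cons 0 (Fin.cons 0 fun i => f (u i)) := by
  funext i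
  refine Fin.cases ?_ (fun j => Fin.cases ?_ (fun b => ?_) j) i
  · simp
  · simp
  · simp

theorem map_qh (c : Ix m → S) (x ξ : I m → S) (z : S) :
    f (qh c x ξ z) = qh (fun e => f (c e)) (fun i => f (x i)) (fun i => f (ξ i)) (f z) := by
  rw [qh, map_add, map_mul, map_mul, map_Mx_det, map_tf, map_tf, map_ofNat, map_cons2]
  simp only [map_yh, Pi.neg_apply, map_neg, map_mulVec, RingHom.map_adjugate, map_Mx, map_dl]
  rfl

theorem map_qa (c : Ix m → S) (x ξ : I m → S) :
    f (qa c x ξ) = qa (fun e => f (c e)) (fun i => f (x i)) fun i => f (ξ i) := by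
  rw [qa, map_add, map_mul, map_mul, map_Mx_det, map_tf, map_tf, map_ofNat, map_cons2]
  simp only [map_Y1, Pi.neg_apply, map_neg, map_mulVec, RingHom.map_adjugate, map_Mx, map_dl]
  rfl

theorem map_th (c : Ix m → S) (x : I m → S) (z : S) :
    f (th c x z) = th (fun e => f (c e)) (fun i => f (x i)) (f z) := by
  have e : ∀ r : Fin m, f (if r.val + 1 < m then 0 else 1) = if r.val + 1 < m then 0 else 1 := by
    intro r
    split_ifs
    · exact map_zero f
    · exact map_one f
  rw [th, map_mul, map_tf, map_neg, map_ofNat, map_cons2]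
  simp only [map_yh, map_mulVec, RingHom.map_adjugate, map_Mx, e]
  rfl

theorem OnX.map {c : Ix m → S} {x y : I m → S} (h : OnX c x y) :
    OnX (fun e => f (c e)) (fun i => f (x i)) fun i => f (y i) := by
  refine ⟨fun r => ?_, ?_, ?_⟩
  · rw [← map_bf, h.1 r, map_zero]
  · rw [← map_sf, h.2.1, map_zero]
  · rw [← map_tf, h.2.2, map_zero]

end map

section linear

variable {m : ℕ} {S : Type*} [CommRing S] (c : Ix m → S)

theorem bf_add_right (r : Bi m) (x y y' : I m → S) :
    bf c r x (fun i => y i + y' i) = bf c r x y + bf c r x y' := by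
  simp only [bf, mul_add, Finset.sum_add_distrib]

theorem bf_smul_right (r : Bi m) (a : S) (x y : I m → S) :
    bf c r x (fun i => a * y i) = a * bf c r x y := by
  simp only [bf, Finset.mul_sum]
  refine Finset.sum_congr rfl fun i _ => Finset.sum_congr rfl fun j _ => ?_
  ring

theorem bf_add_left (r : Bi m) (x x' y : I m → S) :
    bf c r (fun i => x i + x' i) y = bf c r x y + bf c r x' y := by
  simp only [bf, mul_add, add_mul, Finset.sum_add_distrib]

theorem bf_smul_left (r : Bi m) (a : S) (x y : I m → S) :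
    bf c r (fun i => a * x i) y = a * bf c r x y := by
  simp only [bf, Finset.mul_sum]
  refine Finset.sum_congr rfl fun i _ => Finset.sum_congr rfl fun j _ => ?_
  ring

theorem sf_add1 (x x' x'' y : I m → S) :
    sf c (fun i => x i + x' i) x'' y = sf c x x'' y + sf c x' x'' y := by
  simp only [sf, mul_add, add_mul, Finset.sum_add_distrib]

theorem sf_smul1 (a : S) (x x' y : I m → S) :
    sf c (fun i => a * x i) x' y = a * sf c x x' y := by
  simp only [sf, Finset.mul_sum]
  refine Finset.sum_congr rfl fun i _ => Finset.sum_congr rfl fun j _ =>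
    Finset.sum_congr rfl fun k _ => ?_
  ring

theorem sf_add2 (x x' x'' y : I m → S) :
    sf c x (fun i => x' i + x'' i) y = sf c x x' y + sf c x x'' y := by
  simp only [sf, mul_add, add_mul, Finset.sum_add_distrib]

theorem sf_smul2 (a : S) (x x' y : I m → S) :
    sf c x (fun i => a * x' i) y = a * sf c x x' y := by
  simp only [sf, Finset.mul_sum]
  refine Finset.sum_congr rfl fun i _ => Finset.sum_congr rfl fun j _ =>
    Finset.sum_congr rfl fun k _ => ?_
  ring

theorem sf_add3 (x x' y y' : I m → S) :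
    sf c x x' (fun i => y i + y' i) = sf c x x' y + sf c x x' y' := by
  simp only [sf, mul_add, Finset.sum_add_distrib]

theorem sf_smul3 (a : S) (x x' y : I m → S) :
    sf c x x' (fun i => a * y i) = a * sf c x x' y := by
  simp only [sf, Finset.mul_sum]
  refine Finset.sum_congr rfl fun i _ => Finset.sum_congr rfl fun j _ =>
    Finset.sum_congr rfl fun k _ => ?_
  ring

theorem sf_symm (x x' y : I m → S) : sf c x x' y = sf c x' x y := by
  simp only [sf]
  rw [Finset.sum_comm]
  refine Finset.sum_congr rfl fun i _ => Finset.sum_congr rfl fun j _ =>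
    Finset.sum_congr rfl fun k _ => ?_
  ring

theorem tf_add1 (x x' y y' : I m → S) :
    tf c (fun i => x i + x' i) y y' = tf c x y y' + tf c x' y y' := by
  simp only [tf, mul_add, add_mul, Finset.sum_add_distrib]

theorem tf_smul1 (a : S) (x y y' : I m → S) :
    tf c (fun i => a * x i) y y' = a * tf c x y y' := by
  simp only [tf, Finset.mul_sum]
  refine Finset.sum_congr rfl fun i _ => Finset.sum_congr rfl fun j _ =>
    Finset.sum_congr rfl fun k _ => ?_
  ring

theorem tf_add2 (x y y' y'' : I m → S) :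
    tf c x (fun i => y i + y' i) y'' = tf c x y y'' + tf c x y' y'' := by
  simp only [tf, mul_add, add_mul, Finset.sum_add_distrib]

theorem tf_smul2 (a : S) (x y y' : I m → S) :
    tf c x (fun i => a * y i) y' = a * tf c x y y' := by
  simp only [tf, Finset.mul_sum]
  refine Finset.sum_congr rfl fun i _ => Finset.sum_congr rfl fun j _ =>
    Finset.sum_congr rfl fun k _ => ?_
  ring

theorem tf_add3 (x y y' y'' : I m → S) :
    tf c x y (fun i => y' i + y'' i) = tf c x y y' + tf c x y y'' := by
  simp only [tf, mul_add, Finset.sum_add_distrib]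

theorem tf_smul3 (a : S) (x y y' : I m → S) :
    tf c x y (fun i => a * y' i) = a * tf c x y y' := by
  simp only [tf, Finset.mul_sum]
  refine Finset.sum_congr rfl fun i _ => Finset.sum_congr rfl fun j _ =>
    Finset.sum_congr rfl fun k _ => ?_
  ring

theorem tf_symm (x y y' : I m → S) : tf c x y y' = tf c x y' y := by
  simp only [tf]
  refine Finset.sum_congr rfl fun i _ => ?_
  rw [Finset.sum_comm]
  refine Finset.sum_congr rfl fun j _ => Finset.sum_congr rfl fun k _ => ?_
  ring

theorem lx_add (r : Fin m) (x y y' : I m → S) :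
    lx c r x (fun i => y i + y' i) = lx c r x y + lx c r x y' := by
  unfold lx
  split_ifs with h
  · exact bf_add_right c _ x y y'
  · exact sf_add3 c x x y y'

theorem lx_smul (r : Fin m) (a : S) (x y : I m → S) :
    lx c r x (fun i => a * y i) = a * lx c r x y := by
  unfold lx
  split_ifs with h
  · exact bf_smul_right c _ a x y
  · exact sf_smul3 c a x x y

theorem ly_add (r : Fin m) (x x' y : I m → S) :
    ly c r (fun i => x i + x' i) y = ly c r x y + ly c r x' y := by
  unfold ly
  split_ifs with h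
  · exact bf_add_left c _ x x' y
  · exact tf_add1 c x x' y y

theorem ly_smul (r : Fin m) (a : S) (x y : I m → S) :
    ly c r (fun i => a * x i) y = a * ly c r x y := by
  unfold ly
  split_ifs with h
  · exact bf_smul_left c _ a x y
  · exact tf_smul1 c a x y y

/-- `lx` is homogeneous of degree `1` or `2` in `x`. -/
theorem lx_smul_left (r : Fin m) (a : S) (x y : I m → S) :
    lx c r (fun i => a * x i) y = (if r.val + 1 < m then a else a ^ 2) * lx c r x y := by
  unfold lx
  split_ifs with h
  · exact bf_smul_left c _ a x y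
  · rw [sf_smul1, sf_smul2]
    ring

/-- `ly` is homogeneous of degree `1` or `2` in `y`. -/
theorem ly_smul_right (r : Fin m) (a : S) (x y : I m → S) :
    ly c r x (fun i => a * y i) = (if r.val + 1 < m then a else a ^ 2) * ly c r x y := by
  unfold ly
  split_ifs with h
  · exact bf_smul_right c _ a x y
  · rw [tf_smul2, tf_smul3]
    ring

theorem bf_sum_y (r : Bi m) (x y : I m → S) :
    bf c r x y = ∑ j, bf c r x (Pi.single j 1) * y j := by
  have h : ∀ j : I m, bf c r x (Pi.single j 1) = ∑ i, c (.inl (r, i, j)) * x i := by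
    intro j
    simp only [bf]
    refine Finset.sum_congr rfl fun i _ => ?_
    rw [Finset.sum_eq_single j]
    · rw [Pi.single_eq_same, mul_one]
    · intro b _ hb
      rw [Pi.single_eq_of_ne hb, mul_zero]
    · intro hj
      exact absurd (Finset.mem_univ j) hj
  simp only [h]
  rw [bf, Finset.sum_comm]
  refine Finset.sum_congr rfl fun j _ => ?_
  rw [Finset.sum_mul]

theorem bf_sum_x (r : Bi m) (x y : I m → S) :
    bf c r x y = ∑ i, bf c r (Pi.single i 1) y * x i := by
  have h : ∀ i : I m, bf c r (Pi.single i 1) y = ∑ j, c (.inl (r, i, j)) * y j := by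
    intro i
    simp only [bf]
    rw [Finset.sum_eq_single i]
    · simp only [Pi.single_eq_same, mul_one]
    · intro b _ hb
      simp only [Pi.single_eq_of_ne hb, mul_zero, zero_mul, Finset.sum_const_zero]
    · intro hj
      exact absurd (Finset.mem_univ i) hj
  simp only [h]
  rw [bf]
  refine Finset.sum_congr rfl fun i _ => ?_
  rw [Finset.sum_mul]
  refine Finset.sum_congr rfl fun j _ => ?_
  ring

theorem sf_sum_y (x x' y : I m → S) :
    sf c x x' y = ∑ k, sf c x x' (Pi.single k 1) * y k := by
  have h : ∀ k : I m, sf c x x' (Pi.single k 1) = ∑ i, ∑ j,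
      (c (.inr (.inl (i, j, k))) + c (.inr (.inl (j, i, k)))) * x i * x' j := by
    intro k
    simp only [sf]
    refine Finset.sum_congr rfl fun i _ => Finset.sum_congr rfl fun j _ => ?_
    rw [Finset.sum_eq_single k]
    · rw [Pi.single_eq_same, mul_one]
    · intro b _ hb
      rw [Pi.single_eq_of_ne hb, mul_zero]
    · intro hj
      exact absurd (Finset.mem_univ k) hj
  simp only [h, Finset.sum_mul]
  rw [sf, Finset.sum_comm]
  refine (Finset.sum_congr rfl fun j _ => Finset.sum_comm).trans ?_
  rw [Finset.sum_comm]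
  refine Finset.sum_congr rfl fun k _ => ?_
  rw [Finset.sum_comm]

theorem tf_sum_x (x y y' : I m → S) :
    tf c x y y' = ∑ i, tf c (Pi.single i 1) y y' * x i := by
  have h : ∀ i : I m, tf c (Pi.single i 1) y y' = ∑ j, ∑ k,
      (c (.inr (.inr (i, j, k))) + c (.inr (.inr (i, k, j)))) * y j * y' k := by
    intro i
    simp only [tf]
    rw [Finset.sum_eq_single i]
    · simp only [Pi.single_eq_same, mul_one]
    · intro b _ hb
      simp only [Pi.single_eq_of_ne hb, mul_zero, zero_mul, Finset.sum_const_zero]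
    · intro hj
      exact absurd (Finset.mem_univ i) hj
  simp only [h, Finset.sum_mul]
  rw [tf]
  refine Finset.sum_congr rfl fun i _ => Finset.sum_congr rfl fun j _ =>
    Finset.sum_congr rfl fun k _ => ?_
  ring

theorem lx_sum (r : Fin m) (x y : I m → S) :
    lx c r x y = ∑ j, lx c r x (Pi.single j 1) * y j := by
  unfold lx
  split_ifs with h
  · exact bf_sum_y c _ x y
  · exact sf_sum_y c x x y

theorem ly_sum (r : Fin m) (x y : I m → S) :
    ly c r x y = ∑ i, ly c r (Pi.single i 1) y * x i := by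
  unfold ly
  split_ifs with h
  · exact bf_sum_x c _ x y
  · exact tf_sum_x c x y y

theorem lx_expand (r : Fin m) (x y : I m → S) :
    lx c r x y = y 0 * lx c r x (Pi.single 0 1) + y 1 * lx c r x (Pi.single 1 1) +
      ∑ b : Fin m, lx c r x (Pi.single b.succ.succ 1) * y b.succ.succ := by
  rw [lx_sum, Fin.sum_univ_succ, Fin.sum_univ_succ, ← add_assoc]
  have h1 : (Fin.succ 0 : Fin (m + 2)) = 1 := rfl
  rw [h1]
  ring

theorem ker_adj (M : Matrix (Fin m) (Fin m) S) (b : Fin m → S) (r : Fin m) :
    ∑ i, M r i * (M.adjugate.mulVec b) i = M.det * b r := by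
  have h : M.mulVec (M.adjugate.mulVec b) = M.det • b := by
    rw [Matrix.mulVec_mulVec, Matrix.mul_adjugate, Matrix.smul_mulVec, Matrix.one_mulVec]
  exact congrFun h r

theorem ly_xh (y : I m → S) (r : Fin m) : ly c r (xh c y) y = 0 := by
  rw [ly_sum, Fin.sum_univ_succ, Fin.sum_univ_castSucc]
  simp only [xh, vh, Fin.cons_zero, Fin.cons_succ, Fin.snoc_castSucc, Fin.snoc_last, mul_zero,
    zero_add, Pi.neg_apply, mul_neg, Finset.sum_neg_distrib]
  have h := ker_adj (Nx c y) (fun r => ly c r (Pi.single (Fin.last (m + 1)) 1) y) r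
  have h2 : ∀ i : Fin m, Nx c y r i = ly c r (Pi.single i.castSucc.succ 1) y := fun i => rfl
  simp only [h2] at h
  rw [h, Fin.succ_last]
  ring

theorem lx_Y1 (x : I m → S) (r : Fin m) : lx c r x (Y1 c x) = 0 := by
  rw [lx_sum, Fin.sum_univ_succ, Fin.sum_univ_succ]
  simp only [Y1, Fin.cons_zero, Fin.cons_succ, mul_zero, zero_add, Pi.neg_apply, mul_neg,
    Finset.sum_neg_distrib]
  have h := ker_adj (Mx c x) (fun r => lx c r x (Pi.single 1 1)) r
  have h2 : ∀ i : Fin m, Mx c x r i = lx c r x (Pi.single i.succ.succ 1) := fun i => rfl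
  simp only [h2] at h
  rw [h]
  have h1 : (Fin.succ 0 : Fin (m + 2)) = 1 := rfl
  rw [h1]
  ring

theorem lx_Y0 (x : I m → S) (r : Fin m) : lx c r x (Y0 c x) = 0 := by
  rw [lx_sum, Fin.sum_univ_succ, Fin.sum_univ_succ]
  simp only [Y0, Fin.cons_zero, Fin.cons_succ, mul_zero, zero_add, Pi.neg_apply, mul_neg,
    Finset.sum_neg_distrib]
  have h := ker_adj (Mx c x) (fun r => lx c r x (Pi.single 0 1)) r
  have h2 : ∀ i : Fin m, Mx c x r i = lx c r x (Pi.single i.succ.succ 1) := fun i => rfl
  simp only [h2] at h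
  rw [h]
  ring

theorem lx_yh (x : I m → S) (z : S) (r : Fin m) : lx c r x (yh c x z) = 0 := by
  have e : yh c x z = fun i => Y0 c x i + z * Y1 c x i := rfl
  rw [e, lx_add, lx_smul, lx_Y0, lx_Y1]
  ring

theorem OnX.lx {c : Ix m → S} {x y : I m → S} (h : OnX c x y) (r : Fin m) :
    lx c r x y = 0 := by
  unfold Pool.Agent.Helper24.H2.lx
  split_ifs with h1
  · exact h.1 _
  · exact h.2.1

theorem OnX.ly {c : Ix m → S} {x y : I m → S} (h : OnX c x y) (r : Fin m) :
    ly c r x y = 0 := by
  unfold Pool.Agent.Helper24.H2.ly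
  split_ifs with h1
  · exact h.1 _
  · exact h.2.2

theorem onX_iff_lx (hm : 1 ≤ m) (x y : I m → S) :
    OnX c x y ↔ (∀ r, lx c r x y = 0) ∧ tf c x y y = 0 := by
  constructor
  · exact fun h => ⟨OnX.lx h, h.2.2⟩
  · rintro ⟨h1, h2⟩
    refine ⟨fun r => ?_, ?_, h2⟩
    · have := h1 r.1
      rw [lx, dif_pos r.2] at this
      exact this
    · have := h1 ⟨m - 1, by omega⟩
      rw [lx, dif_neg (by simp only [not_lt]; omega)] at this
      exact this

theorem onX_iff_ly (hm : 1 ≤ m) (x y : I m → S) :
    OnX c x y ↔ (∀ r, ly c r x y = 0) ∧ sf c x x y = 0 := by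
  constructor
  · exact fun h => ⟨OnX.ly h, h.2.1⟩
  · rintro ⟨h1, h2⟩
    refine ⟨fun r => ?_, h2, ?_⟩
    · have := h1 r.1
      rw [ly, dif_pos r.2] at this
      exact this
    · have := h1 ⟨m - 1, by omega⟩
      rw [ly, dif_neg (by simp only [not_lt]; omega)] at this
      exact this

theorem Fh_eq (x : I m → S) (z : S) :
    Fh c x z = Ah c x * z ^ 2 + 2 * Bh c x * z + Ch c x := by
  have e : yh c x z = fun i => Y0 c x i + z * Y1 c x i := rfl
  rw [Fh, e, tf_add3, tf_add2, tf_add2, tf_smul2, tf_smul3, tf_smul2, tf_smul3,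
    tf_symm c x (Y1 c x) (Y0 c x), Ah, Bh, Ch]
  ring

/-- The points of the line over `x`. -/
theorem det_mul_eq (x y : I m → S) (h : ∀ r, lx c r x y = 0) (i : I m) :
    (Mx c x).det * y i = y 0 * Y0 c x i + y 1 * Y1 c x i := by
  refine Fin.cases ?_ (fun j => Fin.cases ?_ (fun b => ?_) j) i
  · simp only [Y0, Y1, Fin.cons_zero]
    ring
  · simp only [Y0, Y1, Fin.cons_succ, Fin.cons_zero]
    have e1 : (Fin.succ 0 : Fin (m + 2)) = 1 := rfl
    rw [e1]
    ring
  · simp only [Y0, Y1, Fin.cons_succ, Pi.neg_apply]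
    have h1 : (Mx c x).mulVec (fun b : Fin m => y b.succ.succ) =
        fun r => - (y 0 * lx c r x (Pi.single 0 1) + y 1 * lx c r x (Pi.single 1 1)) := by
      funext r
      have h2 := lx_expand c r x y
      rw [h r] at h2
      have h3 : (Mx c x).mulVec (fun b : Fin m => y b.succ.succ) r =
          ∑ b : Fin m, lx c r x (Pi.single b.succ.succ 1) * y b.succ.succ := rfl
      rw [h3]
      linear_combination -h2
    have h4 : (Mx c x).det * y b.succ.succ =
        (Mx c x).adjugate.mulVec ((Mx c x).mulVec (fun b : Fin m => y b.succ.succ)) b := by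
      rw [Matrix.mulVec_mulVec, Matrix.adjugate_mul, Matrix.smul_mulVec, Matrix.one_mulVec]
      rfl
    rw [h4, h1]
    have h5 : (fun r => - (y 0 * lx c r x (Pi.single 0 1) + y 1 * lx c r x (Pi.single 1 1))) =
        (- y 0) • (fun r => lx c r x (Pi.single 0 1)) +
          (- y 1) • fun r => lx c r x (Pi.single 1 1) := by
      funext r
      simp only [Pi.add_apply, Pi.smul_apply, smul_eq_mul]
      ring
    rw [h5, Matrix.mulVec_add, Matrix.mulVec_smul, Matrix.mulVec_smul]
    simp only [Pi.add_apply, Pi.smul_apply, smul_eq_mul]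
    ring

/-- The quadratic equation of `y 1`. -/
theorem quad_eq (x y : I m → S) (h : OnX c x y) (h0 : y 0 = 1) :
    Ah c x * y 1 ^ 2 + 2 * Bh c x * y 1 + Ch c x = 0 := by
  rw [← Fh_eq]
  have e : yh c x (y 1) = fun i => (Mx c x).det * y i := by
    funext i
    rw [det_mul_eq c x y (OnX.lx h) i, h0, one_mul]
    rfl
  rw [Fh, e, tf_smul2, tf_smul3, h.2.2, mul_zero, mul_zero]

end linear

end Pool.Agent.Helper47.H2
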