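import Mathlib
import Pool.Agent.Helper47.H2.MapL

/-!
# Type 2 (`H2`): the chart and the norm of a function on it

`chartIdeal c` is the ideal of the complete intersection in the chart `x 0 = y 0 = 1`.  On it every
function is `r0 + r1 * y 1` up to powers of `Ah` and of `det Mx`, and
`Ah r0^2 - 2 Bh r0 r1 + Ch r1^2` is its norm.
-/

namespace Pool.Agent.Helper47.H2

open MvPolynomial Pool.Agent.Helper24.H2
open Pool.Agent.Helper28.HN (I Un En cr aff)

universe u v

variable {m : ℕ}

section chart

variable {K : Type*} [CommRing K]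

/-- `det Mx` as a polynomial in the affine coordinates of `x`. -/
noncomputable def Dp (c : Ix m → K) : MvPolynomial (Fin (m + 1)) K :=
  (Mx (fun e => C (c e)) (aff X)).det

/-- `Ah` as a polynomial. -/
noncomputable def Ap (c : Ix m → K) : MvPolynomial (Fin (m + 1)) K :=
  Ah (fun e => C (c e)) (aff X)

/-- `Bh` as a polynomial. -/
noncomputable def Bp (c : Ix m → K) : MvPolynomial (Fin (m + 1)) K :=
  Bh (fun e => C (c e)) (aff X)

/-- `Ch` as a polynomial. -/
noncomputable def Cp (c : Ix m → K) : MvPolynomial (Fin (m + 1)) K :=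
  Ch (fun e => C (c e)) (aff X)

/-- The quadratic equation over `x` has no root which is a rational function of `x`. -/
def NS (c : Ix m → K) : Prop :=
  ∀ r0 r1 : MvPolynomial (Fin (m + 1)) K,
    Ap c * r0 ^ 2 - 2 * Bp c * r0 * r1 + Cp c * r1 ^ 2 = 0 → r0 = 0 ∧ r1 = 0

/-- The ideal of the complete intersection in the chart `x 0 = y 0 = 1`. -/
noncomputable def chartIdeal (c : Ix m → K) :
    Ideal (MvPolynomial (Fin (m + 1) ⊕ Fin (m + 1)) K) :=
  Ideal.span (Set.range (fun r : Bi m => bf (fun e => C (c e)) r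
      (aff fun i => (X (.inl i) : MvPolynomial (Fin (m + 1) ⊕ Fin (m + 1)) K))
      (aff fun i => X (.inr i))) ∪
    {sf (fun e => C (c e)) (aff fun i => X (.inl i)) (aff fun i => X (.inl i))
      (aff fun i => X (.inr i)),
     tf (fun e => C (c e)) (aff fun i => X (.inl i)) (aff fun i => X (.inr i))
      (aff fun i => X (.inr i))})

variable {S : Type*} [CommRing S] [Algebra K S]

theorem chartIdeal_le (c : Ix m → K)
    (f : MvPolynomial (Fin (m + 1) ⊕ Fin (m + 1)) K →ₐ[K] S) :
    chartIdeal c ≤ RingHom.ker f ↔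
      OnX (fun e => algebraMap K S (c e)) (aff fun i => f (X (.inl i)))
        (aff fun i => f (X (.inr i))) := by
  have hc : (fun e => f.toRingHom (C (c e))) = fun e => algebraMap K S (c e) := by
    funext e
    exact algHom_C f (c e)
  have hl : ∀ r, f (bf (fun e => C (c e)) r
      (aff fun i => (X (.inl i) : MvPolynomial (Fin (m + 1) ⊕ Fin (m + 1)) K))
      (aff fun i => X (.inr i))) = bf (fun e => algebraMap K S (c e)) r
        (aff fun i => f (X (.inl i))) (aff fun i => f (X (.inr i))) := by
    intro r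
    have := map_bf f.toRingHom (fun e => C (c e)) r
      (aff fun i => (X (.inl i) : MvPolynomial (Fin (m + 1) ⊕ Fin (m + 1)) K))
      (aff fun i => X (.inr i))
    rw [hc, map_affI, map_affI] at this
    exact this
  have hs : f (sf (fun e => C (c e))
      (aff fun i => (X (.inl i) : MvPolynomial (Fin (m + 1) ⊕ Fin (m + 1)) K))
      (aff fun i => X (.inl i)) (aff fun i => X (.inr i))) =
      sf (fun e => algebraMap K S (c e))
        (aff fun i => f (X (.inl i))) (aff fun i => f (X (.inl i)))
        (aff fun i => f (X (.inr i))) := by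
    have := map_sf f.toRingHom (fun e => C (c e))
      (aff fun i => (X (.inl i) : MvPolynomial (Fin (m + 1) ⊕ Fin (m + 1)) K))
      (aff fun i => X (.inl i)) (aff fun i => X (.inr i))
    rw [hc, map_affI, map_affI] at this
    exact this
  have ht : f (tf (fun e => C (c e))
      (aff fun i => (X (.inl i) : MvPolynomial (Fin (m + 1) ⊕ Fin (m + 1)) K))
      (aff fun i => X (.inr i)) (aff fun i => X (.inr i))) =
      tf (fun e => algebraMap K S (c e))
        (aff fun i => f (X (.inl i))) (aff fun i => f (X (.inr i)))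
        (aff fun i => f (X (.inr i))) := by
    have := map_tf f.toRingHom (fun e => C (c e))
      (aff fun i => (X (.inl i) : MvPolynomial (Fin (m + 1) ⊕ Fin (m + 1)) K))
      (aff fun i => X (.inr i)) (aff fun i => X (.inr i))
    rw [hc, map_affI, map_affI] at this
    exact this
  rw [chartIdeal, Ideal.span_le, Set.union_subset_iff, Set.range_subset_iff,
    Set.insert_subset_iff, Set.singleton_subset_iff]
  simp only [SetLike.mem_coe, RingHom.mem_ker]
  constructor
  · rintro ⟨h1, h2, h3⟩
    exact ⟨fun r => by rw [← hl]; exact h1 r, by rw [← hs]; exact h2, by rw [← ht]; exact h3⟩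
  · rintro ⟨h1, h2, h3⟩
    exact ⟨fun r => by rw [hl]; exact h1 r, by rw [hs]; exact h2, by rw [ht]; exact h3⟩

theorem chartIdeal_le' (c : Ix m → K) (x y : Fin (m + 1) → S) :
    chartIdeal c ≤ RingHom.ker (aeval (Sum.elim x y) :
      MvPolynomial (Fin (m + 1) ⊕ Fin (m + 1)) K →ₐ[K] S) ↔
      OnX (fun e => algebraMap K S (c e)) (aff x) (aff y) := by
  rw [chartIdeal_le]
  simp only [aeval_X, Sum.elim_inl, Sum.elim_inr]

theorem aeval_const (x : Fin (m + 1) → S) (c : Ix m → K) :
    (fun e => (aeval x : MvPolynomial (Fin (m + 1)) K →ₐ[K] S).toRingHom (C (c e))) =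
      fun e => algebraMap K S (c e) := by
  funext e
  exact algHom_C _ (c e)

theorem aeval_affX (x : Fin (m + 1) → S) :
    (fun i => (aeval x : MvPolynomial (Fin (m + 1)) K →ₐ[K] S).toRingHom
      ((aff X : I m → MvPolynomial (Fin (m + 1)) K) i)) = aff x := by
  rw [map_affI]
  congr 1
  funext i
  exact aeval_X x i

theorem aeval_Dp (c : Ix m → K) (x : Fin (m + 1) → S) :
    aeval x (Dp c) = (Mx (fun e => algebraMap K S (c e)) (aff x)).det := by
  have := map_Mx_det (aeval x : MvPolynomial (Fin (m + 1)) K →ₐ[K] S).toRingHom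
    (fun e => C (c e)) (aff X)
  rw [aeval_const, aeval_affX] at this
  exact this

theorem aeval_Ap (c : Ix m → K) (x : Fin (m + 1) → S) :
    aeval x (Ap c) = Ah (fun e => algebraMap K S (c e)) (aff x) := by
  have := map_Ah (aeval x : MvPolynomial (Fin (m + 1)) K →ₐ[K] S).toRingHom
    (fun e => C (c e)) (aff X)
  rw [aeval_const, aeval_affX] at this
  exact this

theorem aeval_Bp (c : Ix m → K) (x : Fin (m + 1) → S) :
    aeval x (Bp c) = Bh (fun e => algebraMap K S (c e)) (aff x) := by
  have := map_Bh (aeval x : MvPolynomial (Fin (m + 1)) K →ₐ[K] S).toRingHom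
    (fun e => C (c e)) (aff X)
  rw [aeval_const, aeval_affX] at this
  exact this

theorem aeval_Cp (c : Ix m → K) (x : Fin (m + 1) → S) :
    aeval x (Cp c) = Ch (fun e => algebraMap K S (c e)) (aff x) := by
  have := map_Ch (aeval x : MvPolynomial (Fin (m + 1)) K →ₐ[K] S).toRingHom
    (fun e => C (c e)) (aff X)
  rw [aeval_const, aeval_affX] at this
  exact this

/-- The points of the line over `x` as polynomials. -/
noncomputable def Y0p (c : Ix m → K) (i : I m) : MvPolynomial (Fin (m + 1)) K :=
  Y0 (fun e => C (c e)) (aff X) i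

/-- The points of the line over `x` as polynomials. -/
noncomputable def Y1p (c : Ix m → K) (i : I m) : MvPolynomial (Fin (m + 1)) K :=
  Y1 (fun e => C (c e)) (aff X) i

theorem aeval_Y0p (c : Ix m → K) (x : Fin (m + 1) → S) (i : I m) :
    aeval x (Y0p c i) = Y0 (fun e => algebraMap K S (c e)) (aff x) i := by
  have := map_Y0 (aeval x : MvPolynomial (Fin (m + 1)) K →ₐ[K] S).toRingHom
    (fun e => C (c e)) (aff X) i
  rw [aeval_const, aeval_affX] at this
  exact this

theorem aeval_Y1p (c : Ix m → K) (x : Fin (m + 1) → S) (i : I m) :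
    aeval x (Y1p c i) = Y1 (fun e => algebraMap K S (c e)) (aff x) i := by
  have := map_Y1 (aeval x : MvPolynomial (Fin (m + 1)) K →ₐ[K] S).toRingHom
    (fun e => C (c e)) (aff X) i
  rw [aeval_const, aeval_affX] at this
  exact this

end chart

section norm

variable {K : Type u} [CommRing K]

/-- Every function on the chart is `r0 + r1 * y 1`, up to a power of `Ah * det Mx`. -/
theorem exists_lin (c : Ix m → K) (F : MvPolynomial (Fin (m + 1) ⊕ Fin (m + 1)) K) :
    ∃ (n : ℕ) (r0 r1 : MvPolynomial (Fin (m + 1)) K), ∀ (S : Type v) [CommRing S] [Algebra K S]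
      (x y : Fin (m + 1) → S), OnX (fun e => algebraMap K S (c e)) (aff x) (aff y) →
      (aeval x (Ap c) * aeval x (Dp c)) ^ n * aeval (Sum.elim x y) F =
        aeval x r0 + aeval x r1 * y 0 := by
  induction F using MvPolynomial.induction_on with
  | C a =>
    refine ⟨0, C a, 0, fun S _ _ x y _ => ?_⟩
    rw [pow_zero, one_mul, map_zero, zero_mul, add_zero, algHom_C, algHom_C]
  | add p q hp hq =>
    obtain ⟨n, r0, r1, h⟩ := hp
    obtain ⟨n', r0', r1', h'⟩ := hq
    refine ⟨n + n', (Ap c * Dp c) ^ n' * r0 + (Ap c * Dp c) ^ n * r0',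
      (Ap c * Dp c) ^ n' * r1 + (Ap c * Dp c) ^ n * r1', fun S _ _ x y hxy => ?_⟩
    have e := h S x y hxy
    have e' := h' S x y hxy
    simp only [map_add, map_mul, map_pow]
    rw [pow_add]
    linear_combination (aeval x (Ap c) * aeval x (Dp c)) ^ n' * e +
      (aeval x (Ap c) * aeval x (Dp c)) ^ n * e'
  | mul_X p i hp =>
    obtain ⟨n, r0, r1, h⟩ := hp
    rcases i with i | i
    · refine ⟨n, r0 * X i, r1 * X i, fun S _ _ x y hxy => ?_⟩
      have e := h S x y hxy
      simp only [map_mul, aeval_X, Sum.elim_inl]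
      linear_combination x i * e
    · refine ⟨n + 1, Ap c * (r0 * Y0p c i.succ) - Cp c * (r1 * Y1p c i.succ),
        Ap c * (r0 * Y1p c i.succ + r1 * Y0p c i.succ) - 2 * Bp c * (r1 * Y1p c i.succ),
        fun S _ _ x y hxy => ?_⟩
      have e := h S x y hxy
      have e1 := det_mul_eq (fun e => algebraMap K S (c e)) (aff x) (aff y) (OnX.lx hxy) i.succ
      have e2 := quad_eq (fun e => algebraMap K S (c e)) (aff x) (aff y) hxy rfl
      have a0 : (aff y : I m → S) 0 = 1 := rfl
      have a1 : (aff y : I m → S) 1 = y 0 := rfl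
      have ai : (aff y : I m → S) i.succ = y i := rfl
      rw [← aeval_Dp, ← aeval_Y0p, ← aeval_Y1p, a0, a1, ai, one_mul] at e1
      rw [← aeval_Ap, ← aeval_Bp, ← aeval_Cp, a1] at e2
      simp only [map_mul, map_sub, map_add, map_ofNat, aeval_X, Sum.elim_inr]
      rw [pow_succ]
      linear_combination (aeval x (Ap c) * (aeval x (Dp c) * y i)) * e +
        (aeval x (Ap c) * (aeval x r0 + aeval x r1 * y 0)) * e1 +
        (aeval x r1 * aeval x (Y1p c i.succ)) * e2

/-- The norm of `F` over `x`. -/
theorem exists_normpoly (c : Ix m → K) (hns : NS c)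
    (F : MvPolynomial (Fin (m + 1) ⊕ Fin (m + 1)) K) :
    ∃ N : MvPolynomial (Fin (m + 1)) K,
      (∀ (S : Type v) [CommRing S] [Algebra K S] (x y : Fin (m + 1) → S),
        OnX (fun e => algebraMap K S (c e)) (aff x) (aff y) →
        aeval (Sum.elim x y) F = 0 → aeval x N = 0) ∧
      (N = 0 → ∃ n : ℕ, ∀ (S : Type v) [CommRing S] [Algebra K S] (x y : Fin (m + 1) → S),
        OnX (fun e => algebraMap K S (c e)) (aff x) (aff y) →
        (aeval x (Ap c) * aeval x (Dp c)) ^ n * aeval (Sum.elim x y) F = 0) := by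
  obtain ⟨n, r0, r1, h⟩ := exists_lin.{u, v} c F
  refine ⟨Ap c * r0 ^ 2 - 2 * Bp c * r0 * r1 + Cp c * r1 ^ 2, ?_, ?_⟩
  · intro S _ _ x y hxy hF
    have e := h S x y hxy
    rw [hF, mul_zero] at e
    have e2 := quad_eq (fun e => algebraMap K S (c e)) (aff x) (aff y) hxy rfl
    have a1 : (aff y : I m → S) 1 = y 0 := rfl
    rw [← aeval_Ap, ← aeval_Bp, ← aeval_Cp, a1] at e2
    simp only [map_mul, map_sub, map_add, map_ofNat, map_pow]
    linear_combination ((-(aeval x (Ap c))) * (aeval x r0 - aeval x r1 * y 0) +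
      2 * aeval x (Bp c) * aeval x r1) * e + (aeval x r1) ^ 2 * e2
  · intro hN
    obtain ⟨h0, h1⟩ := hns r0 r1 hN
    refine ⟨n, fun S _ _ x y hxy => ?_⟩
    rw [h S x y hxy, h0, h1]
    simp

end norm

end Pool.Agent.Helper47.H2
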